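import Pool.Agent.helper23.P2Z.Spec
import Pool.Agent.helper56.CH.Spec

/-!
# P2Z.WHO (helper18): homotopy invariance of the winding number, from CH.WNH
-/

set_option autoImplicit false

open Complex Metric Set Filter Topology MeasureTheory
open V3S (UF)
open WP (it)
open V3 (Chain chi)

noncomputable section

namespace P2Z

theorem WHO (hWNH : CH.WNH_stmt) : WHO_stmt := by
  intro m γ z hc hch hz
  refine hWNH m (fun t k s => γ k (t, s)) (fun _ => z) hch (fun j hj => (hc j hj).continuous.continuousOn)
    continuousOn_const ?_
  intro u hu j hj s hs h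
  exact hz u hu ⟨j, hj, s, hs, h⟩

end P2Z
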